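import Pool.Agent.Helper27.OT.Defs

/-!
# MP_2857a5_co : the definition of good lines (used by HI2 and BL)
-/

set_option autoImplicit false

namespace OT

/-- The line `γ` can be used to exchange two lines. -/
def GoodLine {V : Type} (D : V → V → Prop) (b : ℕ → Bool) (a0 a1 a4 a5 a8 a9 : V)
    (γ : Fin 10 → V) : Prop :=
  Adj D (b 0) a0 (γ 1) ∧ Adj D (b 0) (γ 0) a1 ∧ Adj D (b 4) a4 (γ 5) ∧ Adj D (b 4) (γ 4) a5 ∧
    Adj D (b 8) a8 (γ 9) ∧ Adj D (b 8) (γ 8) a9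

end OT
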