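import Pool.Agent.Helper27.OT.Defs

/-!
# MP_2857a5_co : module KL (samples, key lemma, matching, connection)
-/

set_option autoImplicit false

open Finset
open scoped Classical

namespace OT

noncomputable section

section KL

variable {V : Type} [Fintype V] {D : V → V → Prop} {ε η δ : ℝ}

theorem KL_adj_not (D : V → V → Prop) (b : Bool) (u v : V) : Adj D (!b) v u ↔ Adj D b u v := by
  cases b <;> simp [Adj]

theorem KL_mem_adjN (D : V → V → Prop) (b : Bool) (u v : V) : v ∈ adjN D b u ↔ Adj D b u v := by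
  simp [adjN]

theorem fam_card (D : V → V → Prop) (ε : ℝ) :
    (Fam D ε).card ≤ 5 * (Fintype.card V) ^ 2 := by
  have h1 : ((univ : Finset (Bool × V)).image fun p : Bool × V => adjN D p.1 p.2).card ≤
      2 * Fintype.card V := by
    refine card_image_le.trans ?_
    rw [card_univ, Fintype.card_prod, Fintype.card_bool]
  have h2 : ((univ : Finset (V × V)).image fun p : V × V =>
      symmDiff (adjN D true p.1) (adjN D true p.2)).card ≤ Fintype.card V * Fintype.card V := by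
    refine card_image_le.trans ?_
    rw [card_univ, Fintype.card_prod]
  have h3 : ((univ : Finset V).image (near D ε)).card ≤ Fintype.card V := by
    refine card_image_le.trans ?_
    rw [card_univ]
  have h4 : Fintype.card V ≤ Fintype.card V * Fintype.card V := Nat.le_mul_self _
  unfold Fam
  refine (card_union_le _ _).trans ?_
  refine (Nat.add_le_add_right (card_union_le _ _) _).trans ?_
  calc _ ≤ (2 * Fintype.card V + Fintype.card V * Fintype.card V) + Fintype.card V :=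
        Nat.add_le_add (Nat.add_le_add h1 h2) h3
    _ ≤ 5 * (Fintype.card V) ^ 2 := by rw [pow_two]; omega

theorem Sample.mono {R : Finset V} (h : Sample D ε η R) {η' : ℝ} (hη : η ≤ η') :
    Sample D ε η' R := by
  intro F hF
  refine (h F hF).trans ?_
  have h1 : (0 : ℝ) ≤ (R.card : ℝ) := Nat.cast_nonneg _
  have h2 : (0 : ℝ) ≤ (Fintype.card V : ℝ) := Nat.cast_nonneg _
  exact mul_le_mul_of_nonneg_right (mul_le_mul_of_nonneg_right hη h1) h2

theorem Sample.sub {Q R : Finset V} (h : Sample D ε η Q) (hη : 0 ≤ η) (hδ0 : 0 ≤ δ)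
    (hδ : δ ≤ 1 / 2) (hR : R ⊆ Q) (hc : ((Q \ R).card : ℝ) ≤ δ * (Q.card : ℝ)) :
    Sample D ε (2 * (η + δ)) R := by
  intro F hF
  have hQ := h F hF
  have e1 : (R ∩ F).card + ((Q \ R) ∩ F).card = (Q ∩ F).card := by
    rw [← card_union_of_disjoint]
    · congr 1
      ext x
      simp only [mem_union, mem_inter, mem_sdiff]
      constructor
      · rintro (⟨h1, h2⟩ | ⟨⟨h1, _⟩, h2⟩)
        · exact ⟨hR h1, h2⟩
        · exact ⟨h1, h2⟩
      · rintro ⟨h1, h2⟩
        by_cases hx : x ∈ R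
        · exact Or.inl ⟨hx, h2⟩
        · exact Or.inr ⟨⟨h1, hx⟩, h2⟩
    · rw [disjoint_left]
      intro x hx hx'
      simp only [mem_inter, mem_sdiff] at hx hx'
      exact hx'.1.2 hx.1
  have e2 : (Q \ R).card + R.card = Q.card := card_sdiff_add_card_eq_card hR
  have e1' : ((R ∩ F).card : ℝ) + (((Q \ R) ∩ F).card : ℝ) = ((Q ∩ F).card : ℝ) := by
    exact_mod_cast e1
  have e2' : ((Q \ R).card : ℝ) + (R.card : ℝ) = (Q.card : ℝ) := by exact_mod_cast e2
  have e3 : (((Q \ R) ∩ F).card : ℝ) ≤ ((Q \ R).card : ℝ) := by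
    exact_mod_cast card_le_card inter_subset_left
  have e4 : (F.card : ℝ) ≤ (Fintype.card V : ℝ) := by exact_mod_cast card_le_univ F
  have n1 : (0 : ℝ) ≤ (((Q \ R) ∩ F).card : ℝ) := Nat.cast_nonneg _
  have n2 : (0 : ℝ) ≤ ((Q \ R).card : ℝ) := Nat.cast_nonneg _
  have n3 : (0 : ℝ) ≤ (F.card : ℝ) := Nat.cast_nonneg _
  have n4 : (0 : ℝ) ≤ (Fintype.card V : ℝ) := Nat.cast_nonneg _
  have n5 : (0 : ℝ) ≤ (R.card : ℝ) := Nat.cast_nonneg _
  have n6 : (0 : ℝ) ≤ (Q.card : ℝ) := Nat.cast_nonneg _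
  generalize ((R ∩ F).card : ℝ) = a at *
  generalize (((Q \ R) ∩ F).card : ℝ) = b at *
  generalize ((Q ∩ F).card : ℝ) = c at *
  generalize ((Q \ R).card : ℝ) = d at *
  generalize (R.card : ℝ) = r at *
  generalize (Q.card : ℝ) = q at *
  generalize (F.card : ℝ) = f at *
  generalize (Fintype.card V : ℝ) = N at *
  have hb : |b * N - d * f| ≤ d * N := by
    have h1 : b * N ≤ d * N := mul_le_mul_of_nonneg_right e3 n4
    have h2 : d * f ≤ d * N := mul_le_mul_of_nonneg_left e4 n2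
    have h3 : 0 ≤ b * N := mul_nonneg n1 n4
    have h4 : 0 ≤ d * f := mul_nonneg n2 n3
    rw [abs_le]; constructor <;> linarith
  have hd : d * N ≤ δ * q * N := mul_le_mul_of_nonneg_right hc n4
  have hq : q ≤ 2 * r := by nlinarith
  have key : |a * N - r * f| ≤ η * q * N + d * N := by
    have : a * N - r * f = (c * N - q * f) - (b * N - d * f) := by
      rw [← e1', ← e2']; ring
    rw [this]
    exact (abs_sub _ _).trans (add_le_add hQ hb)
  refine key.trans ?_
  have h5 : (η + δ) * q * N ≤ (η + δ) * (2 * r) * N := by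
    apply mul_le_mul_of_nonneg_right _ n4
    exact mul_le_mul_of_nonneg_left hq (by linarith)
  nlinarith

theorem Sample.biUnion {ι : Type} (I : Finset ι) (W : ι → Finset V)
    (hW : ∀ i ∈ I, Sample D ε η (W i))
    (hd : ∀ i ∈ I, ∀ j ∈ I, i ≠ j → Disjoint (W i) (W j)) :
    Sample D ε η (I.biUnion W) := by
  intro F hF
  have e1 : ((I.biUnion W) ∩ F).card = ∑ i ∈ I, (W i ∩ F).card := by
    rw [biUnion_inter, card_biUnion]
    intro i hi j hj hij
    exact (hd i hi j hj hij).mono inter_subset_left inter_subset_left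
  have e2 : (I.biUnion W).card = ∑ i ∈ I, (W i).card := card_biUnion hd
  rw [e1, e2]
  push_cast
  rw [sum_mul, sum_mul, ← sum_sub_distrib, mul_sum, sum_mul]
  refine (abs_sum_le_sum_abs _ _).trans ?_
  exact sum_le_sum fun i hi => hW i hi F hF

theorem KL_adjN_mem_Fam (b : Bool) (u : V) : adjN D b u ∈ Fam D ε := by
  unfold Fam
  simp only [mem_union, mem_image, mem_univ, true_and]
  exact Or.inl (Or.inl ⟨(b, u), rfl⟩)

theorem KL_symm_mem_Fam (u v : V) : symmDiff (adjN D true u) (adjN D true v) ∈ Fam D ε := by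
  unfold Fam
  simp only [mem_union, mem_image, mem_univ, true_and]
  exact Or.inl (Or.inr ⟨(u, v), rfl⟩)

theorem KL_near_mem_Fam (u : V) : near D ε u ∈ Fam D ε := by
  unfold Fam
  simp only [mem_union, mem_image, mem_univ, true_and]
  exact Or.inr ⟨u, rfl⟩

theorem Sample.deg (h : Host D ε) {R : Finset V} (hR : Sample D ε (ε / 20) R) (b : Bool) (u : V) :
    (1 / 2 - ε / 10) * (R.card : ℝ) ≤ ((R ∩ adjN D b u).card : ℝ) := by
  have h1 := hR _ (KL_adjN_mem_Fam (D := D) (ε := ε) b u)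
  have h2 := h.deg b u
  have hN : (0 : ℝ) < (Fintype.card V : ℝ) := by
    have : 0 < Fintype.card V := Fintype.card_pos_iff.mpr ⟨u⟩
    exact_mod_cast this
  have h3 : (0 : ℝ) ≤ (R.card : ℝ) := Nat.cast_nonneg _
  have h4 := (abs_le.mp h1).1
  have h5 : (R.card : ℝ) * ((1 / 2 - ε / 20) * (Fintype.card V : ℝ)) ≤
      (R.card : ℝ) * ((adjN D b u).card : ℝ) := mul_le_mul_of_nonneg_left h2 h3
  have h6 : ((1 / 2 - ε / 10) * (R.card : ℝ)) * (Fintype.card V : ℝ) ≤
      ((R ∩ adjN D b u).card : ℝ) * (Fintype.card V : ℝ) := by nlinarith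
  exact le_of_mul_le_mul_right h6 hN

theorem KL_arcs_eq_sum (D : V → V → Prop) (X Y : Finset V) :
    arcs D X Y = ∑ u ∈ X, (adjN D true u ∩ Y).card := by
  unfold arcs
  rw [card_eq_sum_card_fiberwise (f := Prod.fst) (t := X)]
  · refine sum_congr rfl fun u hu => ?_
    refine card_bij' (fun p _ => p.2) (fun v _ => (u, v)) ?_ ?_ ?_ ?_
    · rintro ⟨x, y⟩ hp
      simp only [mem_filter, mem_product] at hp
      obtain ⟨⟨⟨_, h2⟩, h3⟩, h4⟩ := hp
      subst h4
      simp only [mem_inter, KL_mem_adjN, Adj, if_true]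
      exact ⟨h3, h2⟩
    · intro v hv
      simp only [mem_inter, KL_mem_adjN, Adj, if_true] at hv
      simp only [mem_filter, mem_product, and_true]
      exact ⟨⟨hu, hv.2⟩, hv.1⟩
    · rintro ⟨x, y⟩ hp
      simp only [mem_filter, mem_product] at hp
      rw [← hp.2]
    · intro v _
      rfl
  · rintro ⟨x, y⟩ hp
    simp only [coe_filter, mem_product, Set.mem_ofPred_eq] at hp
    exact hp.1.1

theorem Host.key (h : Host D ε) {P R S Q : Finset V} (hP : Sample D ε (ε / 20) P)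
    (hR : Sample D ε (ε / 20) R) (hS : S ⊆ P) (hQ : Q ⊆ R)
    (hS1 : (1 / 2 - ε / 10) * (P.card : ℝ) ≤ (S.card : ℝ))
    (hQ1 : (1 / 2 - ε / 10) * (R.card : ℝ) ≤ (Q.card : ℝ)) :
    ε ^ 2 / 400 * (P.card : ℝ) * (R.card : ℝ) ≤ (arcs D S Q : ℝ) := by
  by_contra hcon
  rw [not_le] at hcon
  have hε := h.pos
  have hε1 := h.le
  have hp0 : (0 : ℝ) ≤ (P.card : ℝ) := Nat.cast_nonneg _
  have hr0 : (0 : ℝ) ≤ (R.card : ℝ) := Nat.cast_nonneg _
  have harc0 : (0 : ℝ) ≤ (arcs D S Q : ℝ) := Nat.cast_nonneg _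
  have hprod : 0 < ε ^ 2 / 400 * (P.card : ℝ) * (R.card : ℝ) := lt_of_le_of_lt harc0 hcon
  have hp : (0 : ℝ) < (P.card : ℝ) := by
    rcases hp0.lt_or_eq with h1 | h1
    · exact h1
    · rw [← h1] at hprod; simp at hprod
  have hr : (0 : ℝ) < (R.card : ℝ) := by
    rcases hr0.lt_or_eq with h1 | h1
    · exact h1
    · rw [← h1] at hprod; simp at hprod
  have hN : (0 : ℝ) < (Fintype.card V : ℝ) := by
    have h1 : (P.card : ℝ) ≤ (Fintype.card V : ℝ) := by exact_mod_cast card_le_univ P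
    linarith
  -- the vertices of S with few neighbours in Q
  set S' : Finset V := S.filter fun u => ((adjN D true u ∩ Q).card : ℝ) < ε / 20 * (R.card : ℝ)
    with hS'
  have hsum : ((S \ S').card : ℝ) * (ε / 20 * (R.card : ℝ)) ≤ (arcs D S Q : ℝ) := by
    rw [KL_arcs_eq_sum]
    push_cast
    calc ((S \ S').card : ℝ) * (ε / 20 * (R.card : ℝ))
        = ∑ u ∈ S \ S', (ε / 20 * (R.card : ℝ)) := by rw [sum_const, nsmul_eq_mul]
      _ ≤ ∑ u ∈ S \ S', ((adjN D true u ∩ Q).card : ℝ) := by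
          refine sum_le_sum fun u hu => ?_
          rw [hS', mem_sdiff, mem_filter] at hu
          by_contra hlt
          exact hu.2 ⟨hu.1, not_le.mp hlt⟩
      _ ≤ ∑ u ∈ S, ((adjN D true u ∩ Q).card : ℝ) :=
          sum_le_sum_of_subset_of_nonneg sdiff_subset fun _ _ _ => Nat.cast_nonneg _
  have hdiff : ((S \ S').card : ℝ) < ε / 20 * (P.card : ℝ) := by
    have h1 : ((S \ S').card : ℝ) * (ε / 20 * (R.card : ℝ)) <
        (ε / 20 * (P.card : ℝ)) * (ε / 20 * (R.card : ℝ)) := by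
      refine lt_of_le_of_lt hsum (hcon.trans_le (le_of_eq ?_))
      ring
    exact lt_of_mul_lt_mul_right h1 (by positivity)
  have hScard : ((S \ S').card : ℝ) + (S'.card : ℝ) = (S.card : ℝ) := by
    exact_mod_cast card_sdiff_add_card_eq_card (filter_subset _ _)
  have hS'c : (1 / 2 - 3 / 20 * ε) * (P.card : ℝ) < (S'.card : ℝ) := by nlinarith
  have hQc : ((R \ Q).card : ℝ) + (Q.card : ℝ) = (R.card : ℝ) := by
    exact_mod_cast card_sdiff_add_card_eq_card hQ
  -- neighbourhoods of the vertices of S' inside R \ Q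
  have hmiss : ∀ u ∈ S', (((R \ Q) \ adjN D true u).card : ℝ) ≤ ε / 4 * (R.card : ℝ) := by
    intro u hu
    rw [hS', mem_filter] at hu
    have h1 := Sample.deg h hR true u
    have h2 : (((R \ Q) \ adjN D true u).card : ℝ) + (((R \ Q) ∩ adjN D true u).card : ℝ) =
        ((R \ Q).card : ℝ) := by
      exact_mod_cast card_sdiff_add_card_inter (R \ Q) (adjN D true u)
    have h3 : ((R ∩ adjN D true u).card : ℝ) ≤ ((adjN D true u ∩ Q).card : ℝ) +
        (((R \ Q) ∩ adjN D true u).card : ℝ) := by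
      have : R ∩ adjN D true u ⊆ (adjN D true u ∩ Q) ∪ ((R \ Q) ∩ adjN D true u) := by
        intro x hx
        simp only [mem_inter, mem_union, mem_sdiff] at hx ⊢
        by_cases hxQ : x ∈ Q
        · exact Or.inl ⟨hx.2, hxQ⟩
        · exact Or.inr ⟨⟨hx.1, hxQ⟩, hx.2⟩
      exact_mod_cast (card_le_card this).trans (card_union_le _ _)
    nlinarith [hu.2]
  have hsymm : ∀ u ∈ S', ∀ v ∈ S',
      ((symmDiff (adjN D true u) (adjN D true v)).card : ℝ) ≤ ε * (Fintype.card V : ℝ) := by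
    intro u hu v hv
    have hu1 := hmiss u hu
    have hv1 := hmiss v hv
    rw [hS', mem_filter] at hu hv
    have h1 := hR _ (KL_symm_mem_Fam (D := D) (ε := ε) u v)
    have h2 : ((R ∩ symmDiff (adjN D true u) (adjN D true v)).card : ℝ) ≤
        ((adjN D true u ∩ Q).card : ℝ) + ((adjN D true v ∩ Q).card : ℝ) +
        (((R \ Q) \ adjN D true u).card : ℝ) + (((R \ Q) \ adjN D true v).card : ℝ) := by
      have : R ∩ symmDiff (adjN D true u) (adjN D true v) ⊆
          ((adjN D true u ∩ Q) ∪ (adjN D true v ∩ Q)) ∪ ((R \ Q) \ adjN D true u) ∪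
            ((R \ Q) \ adjN D true v) := by
        intro x hx
        simp only [mem_inter, mem_union, mem_sdiff, mem_symmDiff] at hx ⊢
        by_cases hxQ : x ∈ Q
        · rcases hx.2 with h3 | h3
          · exact Or.inl (Or.inl (Or.inl ⟨h3.1, hxQ⟩))
          · exact Or.inl (Or.inl (Or.inr ⟨h3.1, hxQ⟩))
        · rcases hx.2 with h3 | h3
          · exact Or.inr ⟨⟨hx.1, hxQ⟩, h3.2⟩
          · exact Or.inl (Or.inr ⟨⟨hx.1, hxQ⟩, h3.2⟩)
      have h4 := card_le_card this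
      have h5 := card_union_le (((adjN D true u ∩ Q) ∪ (adjN D true v ∩ Q)) ∪
        ((R \ Q) \ adjN D true u)) ((R \ Q) \ adjN D true v)
      have h6 := card_union_le ((adjN D true u ∩ Q) ∪ (adjN D true v ∩ Q))
        ((R \ Q) \ adjN D true u)
      have h7 := card_union_le (adjN D true u ∩ Q) (adjN D true v ∩ Q)
      have : (R ∩ symmDiff (adjN D true u) (adjN D true v)).card ≤
        (adjN D true u ∩ Q).card + (adjN D true v ∩ Q).card +
        ((R \ Q) \ adjN D true u).card + ((R \ Q) \ adjN D true v).card := by omega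
      exact_mod_cast this
    have h3 : ((R ∩ symmDiff (adjN D true u) (adjN D true v)).card : ℝ) ≤
        3 / 5 * ε * (R.card : ℝ) := by linarith [hu.2, hv.2]
    have h4 := (abs_le.mp h1).1
    have h5 : ((R ∩ symmDiff (adjN D true u) (adjN D true v)).card : ℝ) * (Fintype.card V : ℝ) ≤
        3 / 5 * ε * (R.card : ℝ) * (Fintype.card V : ℝ) :=
      mul_le_mul_of_nonneg_right h3 hN.le
    have h6 : (R.card : ℝ) * ((symmDiff (adjN D true u) (adjN D true v)).card : ℝ) ≤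
        (R.card : ℝ) * (ε * (Fintype.card V : ℝ)) := by
      have h7 : 0 ≤ ε * (R.card : ℝ) * (Fintype.card V : ℝ) := by positivity
      nlinarith
    exact le_of_mul_le_mul_left h6 hr
  have hS'ne : S'.Nonempty := by
    rw [← card_pos]
    have h1 : (0 : ℝ) < (S'.card : ℝ) := by
      refine lt_of_le_of_lt ?_ hS'c
      have : 0 ≤ 1 / 2 - 3 / 20 * ε := by linarith
      positivity
    exact_mod_cast h1
  obtain ⟨u0, hu0⟩ := hS'ne
  have hu0' := hu0
  rw [hS', mem_filter] at hu0'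
  -- the set near u0
  have hX : (1 / 2 - ε) * (Fintype.card V : ℝ) ≤ ((near D ε u0).card : ℝ) := by
    have h1 := hP _ (KL_near_mem_Fam (D := D) (ε := ε) u0)
    have h2 : (S'.card : ℝ) ≤ ((P ∩ near D ε u0).card : ℝ) := by
      have : S' ⊆ P ∩ near D ε u0 := by
        intro v hv
        rw [mem_inter]
        refine ⟨hS (filter_subset _ _ hv), ?_⟩
        unfold near
        rw [mem_filter]
        exact ⟨mem_univ _, hsymm u0 hu0 v hv⟩
      exact_mod_cast card_le_card this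
    have h3 := (abs_le.mp h1).2
    have h4 : (1 / 2 - 3 / 20 * ε) * (P.card : ℝ) * (Fintype.card V : ℝ) ≤
        ((P ∩ near D ε u0).card : ℝ) * (Fintype.card V : ℝ) :=
      mul_le_mul_of_nonneg_right (by linarith) hN.le
    have h5 : (P.card : ℝ) * ((1 / 2 - ε) * (Fintype.card V : ℝ)) ≤
        (P.card : ℝ) * ((near D ε u0).card : ℝ) := by
      have h7 : 0 ≤ ε * (P.card : ℝ) * (Fintype.card V : ℝ) := by positivity
      nlinarith
    exact le_of_mul_le_mul_left h5 hp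
  have hY : (1 / 2 - ε) * (Fintype.card V : ℝ) ≤ (((adjN D true u0)ᶜ).card : ℝ) := by
    have h1 := hR _ (KL_adjN_mem_Fam (D := D) (ε := ε) true u0)
    have h2 : ((R ∩ adjN D true u0).card : ℝ) ≤ ((adjN D true u0 ∩ Q).card : ℝ) +
        ((R \ Q).card : ℝ) := by
      have : R ∩ adjN D true u0 ⊆ (adjN D true u0 ∩ Q) ∪ (R \ Q) := by
        intro x hx
        simp only [mem_inter, mem_union, mem_sdiff] at hx ⊢
        by_cases hxQ : x ∈ Q
        · exact Or.inl ⟨hx.2, hxQ⟩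
        · exact Or.inr ⟨hx.1, hxQ⟩
      exact_mod_cast (card_le_card this).trans (card_union_le _ _)
    have h3 : ((R ∩ adjN D true u0).card : ℝ) ≤ (1 / 2 + 3 / 20 * ε) * (R.card : ℝ) := by
      nlinarith [hu0'.2]
    have h4 := (abs_le.mp h1).1
    have h5 : ((R ∩ adjN D true u0).card : ℝ) * (Fintype.card V : ℝ) ≤
        (1 / 2 + 3 / 20 * ε) * (R.card : ℝ) * (Fintype.card V : ℝ) :=
      mul_le_mul_of_nonneg_right h3 hN.le
    have h6 : (R.card : ℝ) * ((adjN D true u0).card : ℝ) ≤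
        (R.card : ℝ) * ((1 / 2 + ε) * (Fintype.card V : ℝ)) := by
      have h7 : 0 ≤ ε * (R.card : ℝ) * (Fintype.card V : ℝ) := by positivity
      nlinarith
    have h8 := le_of_mul_le_mul_left h6 hr
    have h9 : ((adjN D true u0).card : ℝ) + (((adjN D true u0)ᶜ).card : ℝ) =
        (Fintype.card V : ℝ) := by exact_mod_cast card_add_card_compl (adjN D true u0)
    nlinarith
  refine h.ne ⟨near D ε u0, (adjN D true u0)ᶜ, hX, hY, ?_⟩
  rw [KL_arcs_eq_sum]
  push_cast
  have h1 : ∀ v ∈ near D ε u0, ((adjN D true v ∩ (adjN D true u0)ᶜ).card : ℝ) ≤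
      ε * (Fintype.card V : ℝ) := by
    intro v hv
    unfold near at hv
    rw [mem_filter] at hv
    refine le_trans ?_ hv.2
    have : adjN D true v ∩ (adjN D true u0)ᶜ ⊆ symmDiff (adjN D true u0) (adjN D true v) := by
      intro x hx
      simp only [mem_inter, mem_compl] at hx
      rw [mem_symmDiff]
      exact Or.inr hx
    exact_mod_cast card_le_card this
  calc ∑ v ∈ near D ε u0, ((adjN D true v ∩ (adjN D true u0)ᶜ).card : ℝ)
      ≤ ∑ v ∈ near D ε u0, ε * (Fintype.card V : ℝ) := sum_le_sum h1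
    _ = ((near D ε u0).card : ℝ) * (ε * (Fintype.card V : ℝ)) := by rw [sum_const, nsmul_eq_mul]
    _ ≤ (Fintype.card V : ℝ) * (ε * (Fintype.card V : ℝ)) := by
        refine mul_le_mul_of_nonneg_right ?_ (by positivity)
        exact_mod_cast card_le_univ _
    _ = ε * (Fintype.card V : ℝ) ^ 2 := by ring

theorem KL_arcs_pos {X Y : Finset V} (h : 0 < arcs D X Y) : ∃ x ∈ X, ∃ y ∈ Y, D x y := by
  unfold arcs at h
  rw [card_pos] at h
  obtain ⟨⟨x, y⟩, hp⟩ := h
  simp only [mem_filter, mem_product] at hp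
  exact ⟨x, hp.1.1, y, hp.1.2, hp.2⟩

theorem Host.hall (h : Host D ε) {P R : Finset V} (hP : Sample D ε (ε / 20) P)
    (hR : Sample D ε (ε / 20) R) (hc : P.card = R.card) (b : Bool) (A : Finset V) (hA : A ⊆ P) :
    A.card ≤ (A.biUnion fun x => R ∩ adjN D b x).card := by
  by_contra hcon
  rw [not_le] at hcon
  have hε := h.pos
  have hε1 := h.le
  set NA : Finset V := A.biUnion fun x => R ∩ adjN D b x with hNA
  have hNAR : NA ⊆ R := by
    intro y hy
    rw [hNA, mem_biUnion] at hy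
    obtain ⟨x, _, hxy⟩ := hy
    exact (mem_inter.mp hxy).1
  have hAne : A.Nonempty := by
    rw [← card_pos]; omega
  have hPc : A.card ≤ P.card := card_le_card hA
  have hm : (0 : ℝ) < (R.card : ℝ) := by
    have h1 : 0 < A.card := card_pos.mpr hAne
    have h2 : 0 < R.card := by omega
    exact_mod_cast h2
  have hQc : (R \ NA).card + NA.card = R.card := card_sdiff_add_card_eq_card hNAR
  have hQc' : ((R \ NA).card : ℝ) + (NA.card : ℝ) = (R.card : ℝ) := by exact_mod_cast hQc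
  have hcon' : (NA.card : ℝ) < (A.card : ℝ) := by exact_mod_cast hcon
  have hc' : (P.card : ℝ) = (R.card : ℝ) := by exact_mod_cast hc
  have hno : ∀ x ∈ A, ∀ y ∈ R \ NA, ¬ Adj D b x y := by
    intro x hx y hy hxy
    rw [mem_sdiff] at hy
    refine hy.2 ?_
    rw [hNA, mem_biUnion]
    exact ⟨x, hx, mem_inter.mpr ⟨hy.1, (KL_mem_adjN D b x y).mpr hxy⟩⟩
  by_cases h1 : (A.card : ℝ) ≤ (1 / 2 - ε / 10) * (R.card : ℝ)
  · obtain ⟨x, hx⟩ := hAne
    have h2 := Sample.deg h hR b x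
    have h3 : ((R ∩ adjN D b x).card : ℝ) ≤ (NA.card : ℝ) := by
      have : R ∩ adjN D b x ⊆ NA := by
        intro y hy
        rw [hNA, mem_biUnion]
        exact ⟨x, hx, hy⟩
      exact_mod_cast card_le_card this
    linarith
  rw [not_le] at h1
  by_cases h2 : (A.card : ℝ) ≤ (1 / 2 + ε / 10) * (R.card : ℝ)
  · have hQ1 : (1 / 2 - ε / 10) * (R.card : ℝ) ≤ ((R \ NA).card : ℝ) := by nlinarith
    have hpos : 0 < ε ^ 2 / 400 * (R.card : ℝ) * (R.card : ℝ) := by positivity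
    cases b with
    | true =>
      have h3 := h.key hP hR hA (sdiff_subset : R \ NA ⊆ R) (by rw [hc']; exact h1.le) hQ1
      rw [hc'] at h3
      have h4 : 0 < arcs D A (R \ NA) := by
        have : (0 : ℝ) < (arcs D A (R \ NA) : ℝ) := lt_of_lt_of_le hpos h3
        exact_mod_cast this
      obtain ⟨x, hx, y, hy, hxy⟩ := KL_arcs_pos h4
      exact hno x hx y hy (by simpa [Adj] using hxy)
    | false =>
      have h3 := h.key hR hP (sdiff_subset : R \ NA ⊆ R) hA hQ1 (by rw [hc']; exact h1.le)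
      rw [hc'] at h3
      have h4 : 0 < arcs D (R \ NA) A := by
        have : (0 : ℝ) < (arcs D (R \ NA) A : ℝ) := lt_of_lt_of_le hpos h3
        exact_mod_cast this
      obtain ⟨y, hy, x, hx, hxy⟩ := KL_arcs_pos h4
      exact hno x hx y hy (by simpa [Adj] using hxy)
  rw [not_le] at h2
  have hQne : (R \ NA).Nonempty := by
    rw [← card_pos]; omega
  obtain ⟨y, hy⟩ := hQne
  have h3 := Sample.deg h hP (!b) y
  have h4 : (A ∩ (P ∩ adjN D (!b) y)).Nonempty := by
    by_contra hne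
    rw [not_nonempty_iff_eq_empty, ← disjoint_iff_inter_eq_empty] at hne
    have h5 : (A ∪ (P ∩ adjN D (!b) y)).card = A.card + (P ∩ adjN D (!b) y).card :=
      card_union_of_disjoint hne
    have h6 : (A ∪ (P ∩ adjN D (!b) y)).card ≤ P.card :=
      card_le_card (union_subset hA inter_subset_left)
    rw [h5] at h6
    have h7 : (A.card : ℝ) + ((P ∩ adjN D (!b) y).card : ℝ) ≤ (P.card : ℝ) := by exact_mod_cast h6
    rw [hc'] at h3 h7
    nlinarith
  obtain ⟨x, hx⟩ := h4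
  simp only [mem_inter, KL_mem_adjN] at hx
  exact hno x hx.1 y hy ((KL_adj_not D b x y).mp hx.2.2)

theorem Host.matching (h : Host D ε) {P R : Finset V} (hP : Sample D ε (ε / 20) P)
    (hR : Sample D ε (ε / 20) R) (hc : P.card = R.card) (b : Bool) :
    ∃ f : V → V, (∀ x ∈ P, f x ∈ R) ∧ Set.InjOn f (P : Set V) ∧ ∀ x ∈ P, Adj D b x (f x) := by
  have hall : ∀ s : Finset {x // x ∈ P},
      s.card ≤ (s.biUnion fun x => R ∩ adjN D b (x : V)).card := by
    intro s
    have h1 := h.hall hP hR hc b (s.map (Function.Embedding.subtype _)) (by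
      intro x hx
      rw [mem_map] at hx
      obtain ⟨y, _, rfl⟩ := hx
      exact y.2)
    rw [card_map] at h1
    refine h1.trans (card_le_card ?_)
    intro y hy
    rw [mem_biUnion] at hy ⊢
    obtain ⟨x, hx, hxy⟩ := hy
    rw [mem_map] at hx
    obtain ⟨z, hz, rfl⟩ := hx
    exact ⟨z, hz, hxy⟩
  obtain ⟨g, hg1, hg2⟩ := (all_card_le_biUnion_card_iff_exists_injective _).mp hall
  refine ⟨fun v => if hv : v ∈ P then g ⟨v, hv⟩ else v, ?_, ?_, ?_⟩
  · intro x hx
    simp only [hx, dif_pos]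
    exact (mem_inter.mp (hg2 ⟨x, hx⟩)).1
  · intro x hx y hy hxy
    have hx' : x ∈ P := hx
    have hy' : y ∈ P := hy
    simp only [hx', hy', dif_pos] at hxy
    exact congrArg Subtype.val (hg1 hxy)
  · intro x hx
    simp only [hx, dif_pos]
    exact (KL_mem_adjN D b x _).mp (mem_inter.mp (hg2 ⟨x, hx⟩)).2

theorem Host.single (h : Host D ε) {Q Us : Finset V} (hQ : Sample D ε (ε / 20) Q)
    (hUs : (Us.card : ℝ) ≤ ε ^ 2 / 2000 * (Q.card : ℝ)) (hQ0 : Q.Nonempty) (u : V) (b : Bool) :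
    ∃ x ∈ Q \ Us, Adj D b u x := by
  have hε := h.pos
  have hε1 := h.le
  have hq : (0 : ℝ) < (Q.card : ℝ) := by exact_mod_cast card_pos.mpr hQ0
  have h1 := Sample.deg h hQ b u
  have h2 : (Us.card : ℝ) < ((Q ∩ adjN D b u).card : ℝ) := by
    have h3 : ε ^ 2 / 2000 < 1 / 2 - ε / 10 := by nlinarith
    have h4 : ε ^ 2 / 2000 * (Q.card : ℝ) < (1 / 2 - ε / 10) * (Q.card : ℝ) :=
      mul_lt_mul_of_pos_right h3 hq
    linarith
  have h3 : Us.card < (Q ∩ adjN D b u).card := by exact_mod_cast h2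
  obtain ⟨x, hx, hxU⟩ := exists_mem_notMem_of_card_lt_card h3
  rw [mem_inter, KL_mem_adjN] at hx
  exact ⟨x, mem_sdiff.mpr ⟨hx.1, hxU⟩, hx.2⟩

theorem Host.avoid (h : Host D ε) {Q Us S T : Finset V} (hQ : Sample D ε (ε / 20) Q)
    (hUs : (Us.card : ℝ) ≤ ε ^ 2 / 2000 * (Q.card : ℝ)) (hQ0 : Q.Nonempty)
    (hS : S ⊆ Q) (hT : T ⊆ Q) (hS1 : (1 / 2 - ε / 10) * (Q.card : ℝ) ≤ (S.card : ℝ))
    (hT1 : (1 / 2 - ε / 10) * (Q.card : ℝ) ≤ (T.card : ℝ)) :
    ∃ x ∈ S \ Us, ∃ y ∈ T \ Us, D x y := by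
  have hε := h.pos
  have hq : (0 : ℝ) < (Q.card : ℝ) := by exact_mod_cast card_pos.mpr hQ0
  have h1 := h.key hQ hQ hS hT hS1 hT1
  have h2 : arcs D S T ≤ arcs D (S \ Us) (T \ Us) + 2 * (Us.card * Q.card) := by
    have hsub : ((S ×ˢ T).filter fun p => D p.1 p.2) ⊆
        (((S \ Us) ×ˢ (T \ Us)).filter fun p => D p.1 p.2) ∪ ((Us ×ˢ Q) ∪ (Q ×ˢ Us)) := by
      rintro ⟨x, y⟩ hp
      simp only [mem_filter, mem_product, mem_union, mem_sdiff] at hp ⊢
      by_cases hx : x ∈ Us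
      · exact Or.inr (Or.inl ⟨hx, hT hp.1.2⟩)
      · by_cases hy : y ∈ Us
        · exact Or.inr (Or.inr ⟨hS hp.1.1, hy⟩)
        · exact Or.inl ⟨⟨⟨hp.1.1, hx⟩, ⟨hp.1.2, hy⟩⟩, hp.2⟩
    unfold arcs
    have h3 := card_le_card hsub
    have h4 := card_union_le (((S \ Us) ×ˢ (T \ Us)).filter fun p => D p.1 p.2)
      ((Us ×ˢ Q) ∪ (Q ×ˢ Us))
    have h5 := card_union_le (Us ×ˢ Q) (Q ×ˢ Us)
    have h6 : (Us ×ˢ Q).card = Us.card * Q.card := card_product _ _
    have h7 : (Q ×ˢ Us).card = Us.card * Q.card := by rw [card_product, mul_comm]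
    omega
  have h3 : (arcs D S T : ℝ) ≤ (arcs D (S \ Us) (T \ Us) : ℝ) +
      2 * ((Us.card : ℝ) * (Q.card : ℝ)) := by exact_mod_cast h2
  have h4 : (Us.card : ℝ) * (Q.card : ℝ) ≤ ε ^ 2 / 2000 * (Q.card : ℝ) * (Q.card : ℝ) :=
    mul_le_mul_of_nonneg_right hUs hq.le
  have h5 : 0 < ε ^ 2 * (Q.card : ℝ) * (Q.card : ℝ) := by positivity
  have h6 : (0 : ℝ) < (arcs D (S \ Us) (T \ Us) : ℝ) := by nlinarith
  exact KL_arcs_pos (by exact_mod_cast h6)

theorem Host.connect (h : Host D ε) {Q Us : Finset V} (hQ : Sample D ε (ε / 20) Q)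
    (hUs : (Us.card : ℝ) ≤ ε ^ 2 / 2000 * (Q.card : ℝ)) (hQ0 : Q.Nonempty) (u v : V)
    (b1 b2 b3 : Bool) :
    ∃ x ∈ Q \ Us, ∃ y ∈ Q \ Us, x ≠ y ∧ Adj D b1 u x ∧ Adj D b2 x y ∧ Adj D b3 y v := by
  have h1 := Sample.deg h hQ b1 u
  have h2 := Sample.deg h hQ (!b3) v
  have hne : ∀ x y, D x y → x ≠ y := by
    rintro x y hxy rfl
    exact h.irr x hxy
  cases b2 with
  | true =>
    obtain ⟨x, hx, y, hy, hxy⟩ := h.avoid hQ hUs hQ0 inter_subset_left inter_subset_left h1 h2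
    simp only [mem_sdiff, mem_inter, KL_mem_adjN] at hx hy
    exact ⟨x, mem_sdiff.mpr ⟨hx.1.1, hx.2⟩, y, mem_sdiff.mpr ⟨hy.1.1, hy.2⟩, hne x y hxy, hx.1.2,
      by simpa [Adj] using hxy, (KL_adj_not D b3 y v).mp hy.1.2⟩
  | false =>
    obtain ⟨y, hy, x, hx, hxy⟩ := h.avoid hQ hUs hQ0 inter_subset_left inter_subset_left h2 h1
    simp only [mem_sdiff, mem_inter, KL_mem_adjN] at hx hy
    exact ⟨x, mem_sdiff.mpr ⟨hx.1.1, hx.2⟩, y, mem_sdiff.mpr ⟨hy.1.1, hy.2⟩, (hne y x hxy).symm,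
      hx.1.2, by simpa [Adj] using hxy, (KL_adj_not D b3 y v).mp hy.1.2⟩

end KL

end

end OT
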