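import Pool.Agent.Helper37.OT.KL
import Pool.Agent.Helper37.OT.GoodLine
import Pool.Agent.Helper40.OT.HI1

/-!
# MP_2857a5_co : module HI2 (c-lines)
-/

set_option autoImplicit false

open Finset
open scoped Classical

namespace OT

noncomputable section

/-! ### Counting colliding pairs -/

theorem HI_coll {P : Type} [Fintype P] (s : ℕ) (Rl : P → P → Prop) (c : ℕ)
    (hR : ∀ q, (univ.filter fun p => Rl p q).card ≤ c) (j j' : Fin s) (hj : j ≠ j') :
    (univ.filter fun x : Fin s → P => Rl (x j) (x j')).card ≤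
      c * (Fintype.card P) ^ (s - 1) := by
  set f : (Fin s → P) → ({k : Fin s // k ≠ j} → P) := fun x k => x k with hf
  have h1 := card_le_mul_card_image (f := f) (univ.filter fun x : Fin s → P => Rl (x j) (x j')) c
    (by
      intro a _
      refine le_trans ?_ (hR (a ⟨j', hj.symm⟩))
      refine card_le_card_of_injOn (fun x => x j) ?_ ?_
      · intro x hx
        simp only [coe_filter, mem_filter, mem_univ, true_and, Set.mem_ofPred_eq] at hx ⊢
        obtain ⟨hx1, hx2⟩ := hx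
        rw [← hx2]
        exact hx1
      · intro x hx y hy hxy
        simp only [coe_filter, mem_filter, mem_univ, true_and, Set.mem_ofPred_eq] at hx hy
        funext k
        by_cases hk : k = j
        · rw [hk]; exact hxy
        · have h2 : f x ⟨k, hk⟩ = f y ⟨k, hk⟩ := by rw [hx.2, hy.2]
          exact h2)
  refine h1.trans (Nat.mul_le_mul_left _ ?_)
  refine (card_le_univ _).trans (le_of_eq ?_)
  rw [Fintype.card_fun]
  congr 1
  rw [Fintype.card_subtype_compl, Fintype.card_fin, Fintype.card_subtype_eq]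

theorem HI_family {P T : Type} [Fintype P] [Nonempty P] [Fintype T] (G : T → Finset P) (γ : ℝ)
    (hγ : 0 < γ) (hγ1 : γ ≤ 1) (hG : ∀ t, γ * (Fintype.card P : ℝ) ≤ ((G t).card : ℝ))
    (Rl : P → P → Prop) (c : ℕ) (hR : ∀ q, (univ.filter fun p => Rl p q).card ≤ c) (s : ℕ)
    (hs : 0 < s) (h1 : (Fintype.card T : ℝ) * Real.exp (-(γ * s / 8)) ≤ 1 / 4)
    (h2 : 32 * (s : ℝ) * (c : ℝ) ≤ γ * (Fintype.card P : ℝ)) :
    ∃ x : Fin s → P, (∀ t, γ / 4 * s ≤ ((univ.filter fun j => x j ∈ G t).card : ℝ)) ∧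
      ((univ.filter fun p : Fin s × Fin s => p.2 < p.1 ∧ Rl (x p.1) (x p.2)).card : ℝ) ≤
        γ / 8 * s := by
  have hP : (0 : ℝ) < (Fintype.card P : ℝ) := by exact_mod_cast Fintype.card_pos
  have hs' : (0 : ℝ) < (s : ℝ) := by exact_mod_cast hs
  by_contra hcon
  push Not at hcon
  set B1 := univ.filter fun x : Fin s → P =>
      ∃ t, ((univ.filter fun j => x j ∈ G t).card : ℝ) < γ / 4 * s with hB1
  set B2 := univ.filter fun x : Fin s → P => γ / 8 * s <
    ((univ.filter fun p : Fin s × Fin s => p.2 < p.1 ∧ Rl (x p.1) (x p.2)).card : ℝ) with hB2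
  have hcov : (univ : Finset (Fin s → P)) ⊆ B1 ∪ B2 := by
    intro x _
    rw [mem_union, hB1, hB2, mem_filter, mem_filter]
    by_cases hx : ∃ t, ((univ.filter fun j => x j ∈ G t).card : ℝ) < γ / 4 * s
    · exact Or.inl ⟨mem_univ _, hx⟩
    · push Not at hx
      exact Or.inr ⟨mem_univ _, hcon x hx⟩
  have hc1 : (Fintype.card P) ^ s ≤ B1.card + B2.card := by
    have h3 := (card_le_card hcov).trans (card_union_le _ _)
    rwa [card_univ, Fintype.card_fun, Fintype.card_fin] at h3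
  have hc1' : (Fintype.card P : ℝ) ^ s ≤ (B1.card : ℝ) + (B2.card : ℝ) := by exact_mod_cast hc1
  have hB1c : (B1.card : ℝ) ≤ 1 / 4 * (Fintype.card P : ℝ) ^ s := by
    refine (hitting G γ hγ hγ1 hG s).trans ?_
    exact mul_le_mul_of_nonneg_right h1 (by positivity)
  -- Markov for the colliding pairs
  have hsum : ∑ x : Fin s → P,
      (univ.filter fun p : Fin s × Fin s => p.2 < p.1 ∧ Rl (x p.1) (x p.2)).card ≤
      s * s * (c * (Fintype.card P) ^ (s - 1)) := by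
    have e1 : ∑ x : Fin s → P,
        (univ.filter fun p : Fin s × Fin s => p.2 < p.1 ∧ Rl (x p.1) (x p.2)).card =
        ∑ p : Fin s × Fin s,
          (univ.filter fun x : Fin s → P => p.2 < p.1 ∧ Rl (x p.1) (x p.2)).card := by
      simp only [card_filter]
      exact sum_comm
    rw [e1]
    have e2 : ∀ p ∈ (univ : Finset (Fin s × Fin s)),
        (univ.filter fun x : Fin s → P => p.2 < p.1 ∧ Rl (x p.1) (x p.2)).card ≤
          c * (Fintype.card P) ^ (s - 1) := by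
      intro p _
      by_cases hp : p.2 < p.1
      · refine le_trans (card_le_card ?_) (HI_coll s Rl c hR p.1 p.2 hp.ne')
        intro x hx
        rw [mem_filter] at hx ⊢
        exact ⟨hx.1, hx.2.2⟩
      · have : (univ.filter fun x : Fin s → P => p.2 < p.1 ∧ Rl (x p.1) (x p.2)) = ∅ := by
          rw [filter_eq_empty_iff]
          intro x _ hx
          exact hp hx.1
        rw [this, card_empty]
        exact Nat.zero_le _
    refine (sum_le_card_nsmul _ _ _ e2).trans (le_of_eq ?_)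
    rw [card_univ, Fintype.card_prod, Fintype.card_fin, smul_eq_mul]
  have hB2sum : (B2.card : ℝ) * (γ / 8 * s) ≤
      (s : ℝ) * s * (c * (Fintype.card P : ℝ) ^ (s - 1)) := by
    calc (B2.card : ℝ) * (γ / 8 * s) = ∑ _x ∈ B2, (γ / 8 * s) := by rw [sum_const, nsmul_eq_mul]
      _ ≤ ∑ x ∈ B2,
          ((univ.filter fun p : Fin s × Fin s => p.2 < p.1 ∧ Rl (x p.1) (x p.2)).card : ℝ) := by
          refine sum_le_sum fun x hx => ?_
          rw [hB2, mem_filter] at hx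
          exact hx.2.le
      _ ≤ ∑ x : Fin s → P,
          ((univ.filter fun p : Fin s × Fin s => p.2 < p.1 ∧ Rl (x p.1) (x p.2)).card : ℝ) :=
          sum_le_sum_of_subset_of_nonneg (subset_univ _) fun _ _ _ => Nat.cast_nonneg _
      _ ≤ (s : ℝ) * s * (c * (Fintype.card P : ℝ) ^ (s - 1)) := by exact_mod_cast hsum
  have hpow : (Fintype.card P : ℝ) ^ s = (Fintype.card P : ℝ) ^ (s - 1) * (Fintype.card P : ℝ) := by
    rw [← pow_succ]
    congr 1
    omega
  have hB2c : (B2.card : ℝ) ≤ 1 / 4 * (Fintype.card P : ℝ) ^ s := by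
    have hpp : (0 : ℝ) < (Fintype.card P : ℝ) ^ (s - 1) := by positivity
    have h3 : (B2.card : ℝ) * (γ / 8 * s) ≤ (1 / 4 * (Fintype.card P : ℝ) ^ s) * (γ / 8 * s) := by
      refine hB2sum.trans ?_
      rw [hpow]
      have h4 : (s : ℝ) * (Fintype.card P : ℝ) ^ (s - 1) * (32 * (s : ℝ) * (c : ℝ)) ≤
          (s : ℝ) * (Fintype.card P : ℝ) ^ (s - 1) * (γ * (Fintype.card P : ℝ)) :=
        mul_le_mul_of_nonneg_left h2 (by positivity)
      nlinarith
    exact le_of_mul_le_mul_right h3 (by positivity)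
  have hpos : (0 : ℝ) < (Fintype.card P : ℝ) ^ s := by positivity
  linarith

/-! ### Pairs -/

section Pairs

variable {V : Type} [Fintype V] {D : V → V → Prop} {ε : ℝ}

/-- The adjacent pairs. -/
def HIprs (D : V → V → Prop) (b : Bool) (S T : Finset V) : Finset (V × V) :=
  (S ×ˢ T).filter fun p => Adj D b p.1 p.2

theorem HI_prs_card (h : Host D ε) {P R S T : Finset V} (hP : Sample D ε (ε / 20) P)
    (hR : Sample D ε (ε / 20) R) (b : Bool) (hS : S ⊆ P) (hT : T ⊆ R)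
    (hS1 : (1 / 2 - ε / 10) * (P.card : ℝ) ≤ (S.card : ℝ))
    (hT1 : (1 / 2 - ε / 10) * (R.card : ℝ) ≤ (T.card : ℝ)) :
    ε ^ 2 / 400 * (P.card : ℝ) * (R.card : ℝ) ≤ ((HIprs D b S T).card : ℝ) := by
  cases b with
  | true =>
    have h1 := h.key hP hR hS hT hS1 hT1
    have h2 : (HIprs D true S T).card = arcs D S T := by
      unfold HIprs arcs Adj
      simp
    rw [h2]
    exact h1
  | false =>
    have h1 := h.key hR hP hT hS hT1 hS1
    have h2 : (HIprs D false S T).card = arcs D T S := by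
      unfold HIprs arcs
      refine card_bij' (fun p _ => (p.2, p.1)) (fun p _ => (p.2, p.1)) ?_ ?_ ?_ ?_
      · rintro ⟨x, y⟩ hp
        simp only [mem_filter, mem_product, Adj, Bool.false_eq_true, if_false] at hp ⊢
        exact ⟨⟨hp.1.2, hp.1.1⟩, hp.2⟩
      · rintro ⟨x, y⟩ hp
        simp only [mem_filter, mem_product, Adj, Bool.false_eq_true, if_false] at hp ⊢
        exact ⟨⟨hp.1.2, hp.1.1⟩, hp.2⟩
      · rintro ⟨x, y⟩ _
        rfl
      · rintro ⟨x, y⟩ _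
        rfl
    rw [h2]
    calc ε ^ 2 / 400 * (P.card : ℝ) * (R.card : ℝ) = ε ^ 2 / 400 * (R.card : ℝ) * (P.card : ℝ) := by
          ring
      _ ≤ _ := h1

/-- Two lines meet in some layer. -/
def HImeet {V : Type} (p q : Fin 10 → V) : Prop := ∃ i, p i = q i

/-- The lines. -/
def HIlines (D : V → V → Prop) (b : ℕ → Bool) (W : ℕ → Finset V) : Finset (Fin 10 → V) :=
  (Fintype.piFinset fun i : Fin 10 => W i).filter fun γ =>
    ∀ i : Fin 9, Adj D (b i) (γ i.castSucc) (γ i.succ)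

theorem HI_lines_card (b : ℕ → Bool) (W : ℕ → Finset V) (m : ℕ) (hW : ∀ i ≤ 9, (W i).card = m) :
    (HIlines D b W).card ≤ m ^ 10 := by
  unfold HIlines
  refine (card_filter_le _ _).trans (le_of_eq ?_)
  have h2 : ∀ i ∈ (univ : Finset (Fin 10)), (W (i : ℕ)).card = m := fun i _ => hW i (by omega)
  rw [Fintype.card_piFinset, prod_congr rfl h2, prod_const, card_univ, Fintype.card_fin]

theorem HI_through (b : ℕ → Bool) (W : ℕ → Finset V) (m : ℕ) (hW : ∀ i ≤ 9, (W i).card = m)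
    (i : Fin 10) (v : V) : ((HIlines D b W).filter fun γ => γ i = v).card ≤ m ^ 9 := by
  have h1 : ((HIlines D b W).filter fun γ => γ i = v) ⊆
      Fintype.piFinset (Function.update (fun j : Fin 10 => W j) i {v}) := by
    intro γ hγ
    unfold HIlines at hγ
    rw [mem_filter, mem_filter, Fintype.mem_piFinset] at hγ
    rw [Fintype.mem_piFinset]
    intro j
    by_cases hj : j = i
    · subst hj
      rw [Function.update_self, mem_singleton]
      exact hγ.2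
    · rw [Function.update_of_ne hj]
      exact hγ.1.1 j
  refine (card_le_card h1).trans (le_of_eq ?_)
  rw [Fintype.card_piFinset, ← mul_prod_erase univ _ (mem_univ i), Function.update_self,
    card_singleton, one_mul]
  have h2 : ∀ j ∈ univ.erase i,
      (Function.update (fun j : Fin 10 => W j) i {v} j).card = m := by
    intro j hj
    rw [Function.update_of_ne (ne_of_mem_erase hj)]
    exact hW j (by omega)
  rw [prod_congr rfl h2, prod_const, card_erase_of_mem (mem_univ i), card_univ, Fintype.card_fin]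

theorem HI_good_card (h : Host D ε) (b : ℕ → Bool) (W : ℕ → Finset V) (m : ℕ)
    (hW : ∀ i ≤ 9, (W i).card = m ∧ Sample D ε (ε / 20) (W i)) (a0 a1 a4 a5 a8 a9 : V) :
    (ε ^ 2 / 400) ^ 5 * (m : ℝ) ^ 10 ≤
      (((HIlines D b W).filter fun γ => GoodLine D b a0 a1 a4 a5 a8 a9 γ).card : ℝ) := by
  have hg : 0 < ε ^ 2 / 400 := by have := h.pos; positivity
  have hm : (0 : ℝ) ≤ (m : ℝ) := Nat.cast_nonneg _
  set g := ε ^ 2 / 400 with hgdef
  have hpr : ∀ i ≤ 9, ∀ j ≤ 9, ∀ (b b1 b2 : Bool) (u v : V),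
      g * (m : ℝ) ^ 2 ≤ ((HIprs D b (W i ∩ adjN D b1 u) (W j ∩ adjN D b2 v)).card : ℝ) := by
    intro i hi j hj b b1 b2 u v
    have h1 := HI_prs_card h (hW i hi).2 (hW j hj).2 b inter_subset_left inter_subset_left
      (Sample.deg h (hW i hi).2 b1 u) (Sample.deg h (hW j hj).2 b2 v)
    rw [(hW i hi).1, (hW j hj).1] at h1
    calc g * (m : ℝ) ^ 2 = g * (m : ℝ) * (m : ℝ) := by ring
      _ ≤ _ := h1
  set A := HIprs D (b 0) (W 0 ∩ adjN D (!(b 0)) a1) (W 1 ∩ adjN D (b 0) a0) with hA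
  set B := HIprs D (b 4) (W 4 ∩ adjN D (!(b 4)) a5) (W 5 ∩ adjN D (b 4) a4) with hB
  set C := HIprs D (b 8) (W 8 ∩ adjN D (!(b 8)) a9) (W 9 ∩ adjN D (b 8) a8) with hC
  set M : V × V → V × V → Finset (V × V) := fun p q =>
    HIprs D (b 2) (W 2 ∩ adjN D (b 1) p.2) (W 3 ∩ adjN D (!(b 3)) q.1) with hM
  set M' : V × V → V × V → Finset (V × V) := fun q r =>
    HIprs D (b 6) (W 6 ∩ adjN D (b 5) q.2) (W 7 ∩ adjN D (!(b 7)) r.1) with hM'
  set X : Finset (Σ _ : (V × V) × (V × V) × (V × V), (V × V) × (V × V)) :=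
    (A ×ˢ (B ×ˢ C)).sigma fun z => (M z.1 z.2.1) ×ˢ (M' z.2.1 z.2.2) with hX
  have hXc : (g * (m : ℝ) ^ 2) ^ 5 ≤ (X.card : ℝ) := by
    rw [hX, card_sigma]
    push_cast
    have hgm : 0 ≤ g * (m : ℝ) ^ 2 := by positivity
    calc (g * (m : ℝ) ^ 2) ^ 5
        = ((g * (m : ℝ) ^ 2) * ((g * (m : ℝ) ^ 2) * (g * (m : ℝ) ^ 2))) *
          ((g * (m : ℝ) ^ 2) * (g * (m : ℝ) ^ 2)) := by ring
      _ ≤ ((A.card : ℝ) * ((B.card : ℝ) * (C.card : ℝ))) *
          ((g * (m : ℝ) ^ 2) * (g * (m : ℝ) ^ 2)) := by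
          have hAc := hpr 0 (by norm_num) 1 (by norm_num) (b 0) (!(b 0)) (b 0) a1 a0
          have hBc := hpr 4 (by norm_num) 5 (by norm_num) (b 4) (!(b 4)) (b 4) a5 a4
          have hCc := hpr 8 (by norm_num) 9 (by norm_num) (b 8) (!(b 8)) (b 8) a9 a8
          gcongr
      _ = ∑ _z ∈ A ×ˢ (B ×ˢ C), ((g * (m : ℝ) ^ 2) * (g * (m : ℝ) ^ 2)) := by
          rw [sum_const, nsmul_eq_mul, card_product, card_product]
          push_cast
          ring
      _ ≤ ∑ z ∈ A ×ˢ (B ×ˢ C), (((M z.1 z.2.1) ×ˢ (M' z.2.1 z.2.2)).card : ℝ) := by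
          refine sum_le_sum fun z _ => ?_
          rw [card_product]
          push_cast
          have hMc := hpr 2 (by norm_num) 3 (by norm_num) (b 2) (b 1) (!(b 3)) z.1.2 z.2.1.1
          have hMc' := hpr 6 (by norm_num) 7 (by norm_num) (b 6) (b 5) (!(b 7)) z.2.1.2 z.2.2.1
          gcongr
  have hinj : X.card ≤
      ((HIlines D b W).filter fun γ => GoodLine D b a0 a1 a4 a5 a8 a9 γ).card := by
    refine card_le_card_of_injOn (fun w => ![w.1.1.1, w.1.1.2, w.2.1.1, w.2.1.2, w.1.2.1.1,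
      w.1.2.1.2, w.2.2.1, w.2.2.2, w.1.2.2.1, w.1.2.2.2]) ?_ ?_
    · rintro ⟨⟨⟨p1, p2⟩, ⟨q1, q2⟩, ⟨r1, r2⟩⟩, ⟨⟨s1, s2⟩, ⟨t1, t2⟩⟩⟩ hw
      replace hw := mem_coe.mp hw
      simp only [hX, hA, hB, hC, hM, hM', HIprs, mem_sigma, mem_product, mem_filter, mem_inter,
        KL_mem_adjN, KL_adj_not] at hw
      obtain ⟨⟨⟨⟨⟨hp1, hp1'⟩, ⟨hp2, hp2'⟩⟩, hp⟩, ⟨⟨⟨hq1, hq1'⟩, ⟨hq2, hq2'⟩⟩, hq⟩,
        ⟨⟨⟨hr1, hr1'⟩, ⟨hr2, hr2'⟩⟩, hr⟩⟩, ⟨⟨⟨hs1, hs1'⟩, ⟨hs2, hs2'⟩⟩, hs⟩,
        ⟨⟨⟨ht1, ht1'⟩, ⟨ht2, ht2'⟩⟩, ht⟩⟩ := hw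
      simp only [coe_filter, Set.mem_ofPred_eq, HIlines, mem_filter, Fintype.mem_piFinset]
      refine ⟨⟨?_, ?_⟩, ?_⟩
      · intro i
        fin_cases i <;> assumption
      · intro i
        fin_cases i <;> assumption
      · exact ⟨hp2', hp1', hq2', hq1', hr2', hr1'⟩
    · rintro ⟨⟨⟨p1, p2⟩, ⟨q1, q2⟩, ⟨r1, r2⟩⟩, ⟨⟨s1, s2⟩, ⟨t1, t2⟩⟩⟩ _
        ⟨⟨⟨p1', p2'⟩, ⟨q1', q2'⟩, ⟨r1', r2'⟩⟩, ⟨⟨s1', s2'⟩, ⟨t1', t2'⟩⟩⟩ _ he
      have e := fun i => congrFun he i
      have e0 : p1 = p1' := e 0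
      have e1 : p2 = p2' := e 1
      have e2 : s1 = s1' := e 2
      have e3 : s2 = s2' := e 3
      have e4 : q1 = q1' := e 4
      have e5 : q2 = q2' := e 5
      have e6 : t1 = t1' := e 6
      have e7 : t2 = t2' := e 7
      have e8 : r1 = r1' := e 8
      have e9 : r2 = r2' := e 9
      subst e0 e1 e2 e3 e4 e5 e6 e7 e8 e9
      rfl
  calc g ^ 5 * (m : ℝ) ^ 10 = (g * (m : ℝ) ^ 2) ^ 5 := by ring
    _ ≤ (X.card : ℝ) := hXc
    _ ≤ _ := by exact_mod_cast hinj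

end Pairs

/-! ### Numbers -/

theorem HI_num (γ k θ : ℝ) (hγ : 0 < γ) (hk : 0 < k) (hθ : 0 < θ) :
    ∃ N₀ : ℕ, ∀ n : ℕ, N₀ ≤ n → 1 ≤ n ∧ 2 ≤ k * (θ * n) ∧
      ∀ s : ℝ, k * (θ * n) - 1 ≤ s → (n : ℝ) ^ 6 * Real.exp (-(γ * s / 8)) ≤ 1 / 4 := by
  set c := γ * k * θ / 8 with hc
  have hc0 : 0 < c := by positivity
  have h1 : Filter.Tendsto (fun n : ℕ => c * (n : ℝ)) Filter.atTop Filter.atTop :=
    Filter.Tendsto.const_mul_atTop hc0 tendsto_natCast_atTop_atTop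
  have h2 := (Real.tendsto_pow_mul_exp_neg_atTop_nhds_zero 6).comp h1
  have h3 : ∀ᶠ n : ℕ in Filter.atTop, (c * (n : ℝ)) ^ 6 * Real.exp (-(c * (n : ℝ))) <
      c ^ 6 * (Real.exp (-(γ / 8)) / 4) := by
    have : (0 : ℝ) < c ^ 6 * (Real.exp (-(γ / 8)) / 4) := by positivity
    exact h2.eventually_lt_const this
  obtain ⟨N1, hN1⟩ := Filter.eventually_atTop.mp h3
  obtain ⟨N2, hN2⟩ := exists_nat_gt (2 / (k * θ))
  refine ⟨max (max N1 N2) 1, fun n hn => ?_⟩
  have hn1 : N1 ≤ n := le_trans (le_trans (le_max_left _ _) (le_max_left _ _)) hn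
  have hn2 : N2 ≤ n := le_trans (le_trans (le_max_right _ _) (le_max_left _ _)) hn
  have hn3 : 1 ≤ n := le_trans (le_max_right _ _) hn
  refine ⟨hn3, ?_, ?_⟩
  · have h4 : (2 / (k * θ)) < (n : ℝ) := lt_of_lt_of_le hN2 (by exact_mod_cast hn2)
    rw [div_lt_iff₀ (by positivity)] at h4
    nlinarith
  · intro s hs
    have h4 := hN1 n hn1
    have h5 : -(γ * s / 8) ≤ γ / 8 + -(c * (n : ℝ)) := by
      rw [hc]
      have : γ * (k * (θ * n) - 1) ≤ γ * s := mul_le_mul_of_nonneg_left hs hγ.le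
      nlinarith
    have h6 : Real.exp (-(γ * s / 8)) ≤ Real.exp (γ / 8) * Real.exp (-(c * (n : ℝ))) := by
      rw [← Real.exp_add]
      exact Real.exp_le_exp.mpr h5
    have h7 : (n : ℝ) ^ 6 * Real.exp (-(c * (n : ℝ))) < Real.exp (-(γ / 8)) / 4 := by
      have h8 : c ^ 6 * ((n : ℝ) ^ 6 * Real.exp (-(c * (n : ℝ)))) <
          c ^ 6 * (Real.exp (-(γ / 8)) / 4) := by
        calc c ^ 6 * ((n : ℝ) ^ 6 * Real.exp (-(c * (n : ℝ)))) =
              (c * (n : ℝ)) ^ 6 * Real.exp (-(c * (n : ℝ))) := by ring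
          _ < _ := h4
      exact lt_of_mul_lt_mul_left h8 (by positivity)
    have h9 : Real.exp (γ / 8) * Real.exp (-(γ / 8)) = 1 := by
      rw [← Real.exp_add]; simp
    calc (n : ℝ) ^ 6 * Real.exp (-(γ * s / 8))
        ≤ (n : ℝ) ^ 6 * (Real.exp (γ / 8) * Real.exp (-(c * (n : ℝ)))) :=
          mul_le_mul_of_nonneg_left h6 (by positivity)
      _ = Real.exp (γ / 8) * ((n : ℝ) ^ 6 * Real.exp (-(c * (n : ℝ)))) := by ring
      _ ≤ Real.exp (γ / 8) * (Real.exp (-(γ / 8)) / 4) :=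
          mul_le_mul_of_nonneg_left h7.le (Real.exp_pos _).le
      _ = (Real.exp (γ / 8) * Real.exp (-(γ / 8))) / 4 := by ring
      _ = 1 / 4 := by rw [h9]

/-! ### The lines -/

theorem clines (ε : ℝ) (hε : 0 < ε) (hε1 : ε ≤ 1) : ∃ κ : ℝ, 0 < κ ∧ ∀ θ : ℝ, 0 < θ →
    ∃ N₀ : ℕ, ∀ (V : Type) [Fintype V], N₀ ≤ Fintype.card V → ∀ D : V → V → Prop, Host D ε →
    ∀ (W : ℕ → Finset V) (m : ℕ), (∀ i ≤ 9, (W i).card = m ∧ Sample D ε (ε / 80) (W i)) →
    θ * (Fintype.card V : ℝ) ≤ (m : ℝ) → ∀ b : ℕ → Bool,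
    ∃ C : Finset (Fin 10 → V),
      (∀ γ ∈ C, ∀ i : Fin 10, γ i ∈ W i) ∧
      (∀ γ ∈ C, ∀ i : Fin 9, Adj D (b i) (γ i.castSucc) (γ i.succ)) ∧
      (∀ γ ∈ C, ∀ γ' ∈ C, γ ≠ γ' → ∀ i, γ i ≠ γ' i) ∧
      (C.card : ℝ) ≤ ε / 80 * (m : ℝ) ∧
      ∀ a0 a1 a4 a5 a8 a9 : V,
        κ * (m : ℝ) ≤ ((C.filter fun γ => GoodLine D b a0 a1 a4 a5 a8 a9 γ).card : ℝ) := by
  set g := ε ^ 2 / 400 with hg
  have hg0 : 0 < g := by positivity
  have hg1 : g ≤ 1 := by rw [hg]; nlinarith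
  have hgε : g ≤ ε := by rw [hg]; nlinarith
  set k := g ^ 10 / 320 with hk
  have hk0 : 0 < k := by positivity
  have hkε : k ≤ ε / 80 := by
    have h1 : g ^ 10 ≤ g := by
      calc g ^ 10 = g ^ 9 * g := by ring
        _ ≤ 1 * g := mul_le_mul_of_nonneg_right (pow_le_one₀ hg0.le hg1) hg0.le
        _ = g := one_mul g
    rw [hk]; linarith
  have hγ0 : 0 < g ^ 5 := by positivity
  have hγ1 : g ^ 5 ≤ 1 := pow_le_one₀ hg0.le hg1
  refine ⟨g ^ 5 * k / 16, by positivity, fun θ hθ => ?_⟩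
  obtain ⟨N₀, hN₀⟩ := HI_num (g ^ 5) k θ hγ0 hk0 hθ
  refine ⟨N₀, ?_⟩
  intro V _ hV D hD W m hW hm b
  obtain ⟨hn1, hn2, hn3⟩ := hN₀ _ hV
  have hn : (0 : ℝ) < (Fintype.card V : ℝ) := by exact_mod_cast hn1
  have hVne : Nonempty V := Fintype.card_pos_iff.mp hn1
  have hm0 : (0 : ℝ) < (m : ℝ) := lt_of_lt_of_le (by positivity) hm
  have hkm2 : 2 ≤ k * (m : ℝ) := hn2.trans (mul_le_mul_of_nonneg_left hm hk0.le)
  set s := ⌊k * (m : ℝ)⌋₊ with hs
  have hs1 : (s : ℝ) ≤ k * (m : ℝ) := Nat.floor_le (by positivity)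
  have hs2 : k * (m : ℝ) - 1 < (s : ℝ) := by
    have := Nat.lt_floor_add_one (k * (m : ℝ))
    rw [← hs] at this
    linarith
  have hs3 : k * (m : ℝ) / 2 ≤ (s : ℝ) := by linarith
  have hs0 : 0 < s := by
    have : (0 : ℝ) < (s : ℝ) := by linarith
    exact_mod_cast this
  have hW20 : ∀ i ≤ 9, (W i).card = m ∧ Sample D ε (ε / 20) (W i) := fun i hi =>
    ⟨(hW i hi).1, (hW i hi).2.mono (by linarith)⟩
  have hgood := fun a0 a1 a4 a5 a8 a9 => HI_good_card hD b W m hW20 a0 a1 a4 a5 a8 a9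
  set L := HIlines D b W with hL
  have hLc : (L.card : ℝ) ≤ (m : ℝ) ^ 10 := by
    exact_mod_cast HI_lines_card (D := D) b W m fun i hi => (hW i hi).1
  have hLc' : g ^ 5 * (m : ℝ) ^ 10 ≤ (L.card : ℝ) := by
    obtain ⟨v⟩ := hVne
    refine (hgood v v v v v v).trans ?_
    exact_mod_cast card_le_card (filter_subset _ _)
  have hLpos : (0 : ℝ) < (L.card : ℝ) := lt_of_lt_of_le (by positivity) hLc'
  have hLne : Nonempty {γ // γ ∈ L} := by
    have : 0 < L.card := by exact_mod_cast hLpos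
    obtain ⟨γ, hγ⟩ := card_pos.mp this
    exact ⟨⟨γ, hγ⟩⟩
  have hcardP : Fintype.card {γ // γ ∈ L} = L.card := Fintype.card_coe L
  have hsub : ∀ p : (Fin 10 → V) → Prop,
      (univ.filter fun γ : {γ // γ ∈ L} => p γ.1).card = (L.filter p).card := by
    intro p
    rw [← card_map (Function.Embedding.subtype _)]
    congr 1
    ext γ
    simp only [mem_map, mem_filter, mem_univ, true_and, Function.Embedding.subtype_apply]
    constructor
    · rintro ⟨γ', hγ', rfl⟩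
      exact ⟨γ'.2, hγ'⟩
    · rintro ⟨h1, h2⟩
      exact ⟨⟨γ, h1⟩, h2, rfl⟩
  -- the family
  obtain ⟨x, hx1, hx2⟩ := HI_family (P := {γ // γ ∈ L}) (T := Fin 6 → V)
    (fun t => univ.filter fun γ => GoodLine D b (t 0) (t 1) (t 2) (t 3) (t 4) (t 5) γ.1)
    (g ^ 5) hγ0 hγ1
    (by
      intro t
      rw [hsub (fun γ => GoodLine D b (t 0) (t 1) (t 2) (t 3) (t 4) (t 5) γ), hcardP]
      refine le_trans ?_ (hgood (t 0) (t 1) (t 2) (t 3) (t 4) (t 5))
      exact mul_le_mul_of_nonneg_left hLc hγ0.le)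
    (fun p q => HImeet p.1 q.1) (10 * m ^ 9)
    (by
      intro q
      rw [hsub (fun γ => HImeet γ q.1)]
      have h1 : (L.filter fun γ => HImeet γ q.1) ⊆
          (univ : Finset (Fin 10)).biUnion fun i => L.filter fun γ => γ i = q.1 i := by
        intro γ hγ
        rw [mem_filter] at hγ
        obtain ⟨h2, i, h3⟩ := hγ
        rw [mem_biUnion]
        exact ⟨i, mem_univ _, mem_filter.mpr ⟨h2, h3⟩⟩
      refine (card_le_card h1).trans ((card_biUnion_le_card_mul _ _ (m ^ 9) ?_).trans ?_)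
      · intro i _
        exact HI_through b W m (fun i hi => (hW i hi).1) i (q.1 i)
      · rw [card_univ, Fintype.card_fin])
    s hs0
    (by
      rw [Fintype.card_fun, Fintype.card_fin]
      push_cast
      refine hn3 s ?_
      have := mul_le_mul_of_nonneg_left hm hk0.le
      linarith)
    (by
      rw [hcardP]
      push_cast
      calc 32 * (s : ℝ) * (10 * (m : ℝ) ^ 9) ≤ 32 * (k * (m : ℝ)) * (10 * (m : ℝ) ^ 9) := by
            gcongr
        _ = g ^ 5 * (g ^ 5 * (m : ℝ) ^ 10) := by rw [hk]; ring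
        _ ≤ g ^ 5 * (L.card : ℝ) := mul_le_mul_of_nonneg_left hLc' hγ0.le)
  -- remove the colliding lines
  set J : Finset (Fin s) := univ.filter fun j => ∀ j' < j, ∀ i, (x j).1 i ≠ (x j').1 i with hJ
  have hJc : (Jᶜ.card : ℝ) ≤ g ^ 5 / 8 * s := by
    refine le_trans ?_ hx2
    have h1 : Jᶜ ⊆ (univ.filter fun p : Fin s × Fin s =>
        p.2 < p.1 ∧ HImeet (x p.1).1 (x p.2).1).image Prod.fst := by
      intro j hj
      rw [mem_compl, hJ, mem_filter] at hj
      push Not at hj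
      obtain ⟨j', hj', i, hi⟩ := hj (mem_univ _)
      rw [mem_image]
      exact ⟨(j, j'), mem_filter.mpr ⟨mem_univ _, hj', i, hi⟩, rfl⟩
    exact_mod_cast (card_le_card h1).trans card_image_le
  have hdis : ∀ j ∈ J, ∀ j' ∈ J, j ≠ j' → ∀ i, (x j).1 i ≠ (x j').1 i := by
    intro j hj j' hj' hne i
    rw [hJ, mem_filter] at hj hj'
    rcases lt_or_gt_of_ne hne with h1 | h1
    · exact (hj'.2 j h1 i).symm
    · exact hj.2 j' h1 i
  have hinj : Set.InjOn (fun j => (x j).1) (J : Set (Fin s)) := by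
    intro j hj j' hj' he
    by_contra hne
    exact hdis j hj j' hj' hne 0 (congrFun he 0)
  refine ⟨J.image fun j => (x j).1, ?_, ?_, ?_, ?_, ?_⟩
  · intro γ hγ i
    rw [mem_image] at hγ
    obtain ⟨j, _, rfl⟩ := hγ
    have h1 : (x j).1 ∈ HIlines D b W := (x j).2
    unfold HIlines at h1
    rw [mem_filter, Fintype.mem_piFinset] at h1
    exact h1.1 i
  · intro γ hγ i
    rw [mem_image] at hγ
    obtain ⟨j, _, rfl⟩ := hγ
    have h1 : (x j).1 ∈ HIlines D b W := (x j).2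
    unfold HIlines at h1
    rw [mem_filter] at h1
    exact h1.2 i
  · intro γ hγ γ' hγ' hne i
    rw [mem_image] at hγ hγ'
    obtain ⟨j, hj, rfl⟩ := hγ
    obtain ⟨j', hj', rfl⟩ := hγ'
    refine hdis j hj j' hj' ?_ i
    rintro rfl
    exact hne rfl
  · have h1 : ((J.image fun j => (x j).1).card : ℝ) ≤ (s : ℝ) := by
      have : (J.image fun j => (x j).1).card ≤ s := by
        refine card_image_le.trans ((card_le_univ _).trans (le_of_eq ?_))
        rw [Fintype.card_fin]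
      exact_mod_cast this
    exact h1.trans (hs1.trans (mul_le_mul_of_nonneg_right hkε hm0.le))
  · intro a0 a1 a4 a5 a8 a9
    have h1 := hx1 ![a0, a1, a4, a5, a8, a9]
    have h2 : ((univ.filter fun j => GoodLine D b a0 a1 a4 a5 a8 a9 (x j).1).card : ℝ) ≤
        ((J.filter fun j => GoodLine D b a0 a1 a4 a5 a8 a9 (x j).1).card : ℝ) +
          (Jᶜ.card : ℝ) := by
      have h3 : (univ.filter fun j => GoodLine D b a0 a1 a4 a5 a8 a9 (x j).1) ⊆
          (J.filter fun j => GoodLine D b a0 a1 a4 a5 a8 a9 (x j).1) ∪ Jᶜ := by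
        intro j hj
        rw [mem_filter] at hj
        rw [mem_union, mem_filter, mem_compl]
        by_cases hjJ : j ∈ J
        · exact Or.inl ⟨hjJ, hj.2⟩
        · exact Or.inr hjJ
      exact_mod_cast (card_le_card h3).trans (card_union_le _ _)
    have h4 : (J.filter fun j => GoodLine D b a0 a1 a4 a5 a8 a9 (x j).1).card ≤
        ((J.image fun j => (x j).1).filter fun γ => GoodLine D b a0 a1 a4 a5 a8 a9 γ).card := by
      refine card_le_card_of_injOn (fun j => (x j).1) ?_ ?_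
      · intro j hj
        simp only [coe_filter, Set.mem_ofPred_eq] at hj
        simp only [coe_filter, Set.mem_ofPred_eq]
        exact ⟨mem_image.mpr ⟨j, hj.1, rfl⟩, hj.2⟩
      · intro j hj j' hj' he
        simp only [coe_filter, Set.mem_ofPred_eq] at hj hj'
        exact hinj hj.1 hj'.1 he
    have h5 : ((J.filter fun j => GoodLine D b a0 a1 a4 a5 a8 a9 (x j).1).card : ℝ) ≤
        (((J.image fun j => (x j).1).filter fun γ =>
          GoodLine D b a0 a1 a4 a5 a8 a9 γ).card : ℝ) := by exact_mod_cast h4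
    have h6 : g ^ 5 / 4 * s ≤
        ((univ.filter fun j => GoodLine D b a0 a1 a4 a5 a8 a9 (x j).1).card : ℝ) := by
      refine h1.trans (le_of_eq ?_)
      congr 2
      ext j
      simp only [mem_filter, mem_univ, true_and]
      rfl
    have h7 : g ^ 5 * k / 16 * (m : ℝ) ≤ g ^ 5 / 8 * s := by
      have := mul_le_mul_of_nonneg_left hs3 hγ0.le
      nlinarith
    linarith

end

end OT
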